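import Pool.Agent.W523.LV.Stmts2

/-! Project LV: the nodes of a cell are nearly equidistant. -/

set_option autoImplicit false

open Finset

namespace Pool.Agent.W591.LV

open Pool.Agent.H96R3.BC (vv UU CC vv_nonneg vv_pow UU_pow UU_nonneg)
open Pool.Agent.W523.LV

/-- mean value theorem for powers -/
lemma mv (β : ℝ) {x y : ℝ} (hx : 0 < x) (hxy : x < y) :
    ∃ c, x < c ∧ c < y ∧ y ^ β - x ^ β = β * c ^ (β - 1) * (y - x) := by
  obtain ⟨c, hc, h⟩ := exists_hasDerivAt_eq_slope (fun t : ℝ => t ^ β)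
    (fun t : ℝ => β * t ^ (β - 1)) hxy
    (fun t ht => (Real.hasDerivAt_rpow_const (Or.inl
      (lt_of_lt_of_le hx ht.1).ne')).continuousAt.continuousWithinAt)
    (fun t ht => Real.hasDerivAt_rpow_const (Or.inl (lt_trans hx ht.1).ne'))
  refine ⟨c, hc.1, hc.2, ?_⟩
  rw [h]
  have : y - x ≠ 0 := by linarith
  field_simp

/-- the derivative of a power with exponent in `[0, 1]` varies slowly -/
lemma rat {β a b c d : ℝ} (h0 : 0 ≤ β) (h1 : β ≤ 1) (ha : 0 < a) (hab : b ≤ 2 * a)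
    (hc : a ≤ c) (hd : a ≤ d) (hdb : d ≤ b) : c ^ (β - 1) ≤ 2 * d ^ (β - 1) := by
  have e1 : c ^ (β - 1) ≤ a ^ (β - 1) := Real.rpow_le_rpow_of_nonpos ha hc (by linarith)
  have e2 : (2 * a) ^ (β - 1) ≤ d ^ (β - 1) :=
    Real.rpow_le_rpow_of_nonpos (lt_of_lt_of_le ha hd) (hdb.trans hab) (by linarith)
  rw [Real.mul_rpow (by norm_num) ha.le] at e2
  have e3 : (1 / 2 : ℝ) ≤ 2 ^ (β - 1) := by
    have : (2 : ℝ) ^ (-1 : ℝ) ≤ 2 ^ (β - 1) :=
      Real.rpow_le_rpow_of_exponent_le (by norm_num) (by linarith)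
    rw [Real.rpow_neg_one] at this
    linarith
  have e4 : 0 ≤ a ^ (β - 1) := Real.rpow_nonneg ha.le _
  nlinarith

/-- ratios of increments -/
lemma incr {β a b x y : ℝ} (h0 : 0 < β) (h1 : β ≤ 1) (ha : 0 < a) (hab : b ≤ 2 * a)
    (hlt : a < b) (hx : a ≤ x) (hxy : x ≤ y) (hy : y ≤ b) :
    (y - x) / (2 * (b - a)) ≤ (y ^ β - x ^ β) / (b ^ β - a ^ β) ∧
    (y ^ β - x ^ β) / (b ^ β - a ^ β) ≤ 2 * (y - x) / (b - a) := by
  rcases hxy.eq_or_lt with rfl | hxy
  · simp
  obtain ⟨c, hc1, hc2, hc⟩ := mv β (lt_of_lt_of_le ha hx) hxy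
  obtain ⟨d, hd1, hd2, hd⟩ := mv β ha hlt
  have r1 := rat h0.le h1 ha hab (by linarith : a ≤ c) (by linarith : a ≤ d) (by linarith : d ≤ b)
  have r2 := rat h0.le h1 ha hab (by linarith : a ≤ d) (by linarith : a ≤ c) (by linarith : c ≤ b)
  have pc : 0 < c ^ (β - 1) := Real.rpow_pos_of_pos (by linarith) _
  have pd : 0 < d ^ (β - 1) := Real.rpow_pos_of_pos (by linarith) _
  have hba : 0 < b - a := by linarith
  have hyx : 0 < y - x := by linarith
  rw [hc, hd]
  constructor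
  · rw [div_le_div_iff₀ (by positivity) (by positivity)]
    have : (y - x) * (β * d ^ (β - 1) * (b - a)) =
        (β * (y - x) * (b - a)) * d ^ (β - 1) := by ring
    rw [this]
    have : β * c ^ (β - 1) * (y - x) * (2 * (b - a)) =
        (β * (y - x) * (b - a)) * (2 * c ^ (β - 1)) := by ring
    rw [this]
    exact mul_le_mul_of_nonneg_left r2 (by positivity)
  · rw [div_le_div_iff₀ (by positivity) (by positivity)]
    have : β * c ^ (β - 1) * (y - x) * (b - a) =
        (β * (y - x) * (b - a)) * c ^ (β - 1) := by ring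
    rw [this]
    have : 2 * (y - x) * (β * d ^ (β - 1) * (b - a)) =
        (β * (y - x) * (b - a)) * (2 * d ^ (β - 1)) := by ring
    rw [this]
    exact mul_le_mul_of_nonneg_left r1 (by positivity)

lemma pow_two_le {Q J : ℕ} (hJ : 4 * Q ≤ J) :
    ((J : ℝ) + 1) ^ (2 * Q) ≤ 2 * (J : ℝ) ^ (2 * Q) := by
  have hJ0 : (0 : ℝ) < (J : ℝ) + 1 := by positivity
  have h := one_add_mul_le_pow (a := -(1 / ((J : ℝ) + 1))) (by
    have : 1 / ((J : ℝ) + 1) ≤ 1 := by
      rw [div_le_one hJ0]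
      have : (0 : ℝ) ≤ J := by positivity
      linarith
    linarith) (2 * Q)
  have e1 : 1 + -(1 / ((J : ℝ) + 1)) = (J : ℝ) / ((J : ℝ) + 1) := by
    field_simp
    ring
  rw [e1, div_pow] at h
  have e2 : (1 / 2 : ℝ) ≤ 1 + ((2 * Q : ℕ) : ℝ) * -(1 / ((J : ℝ) + 1)) := by
    have h4 : (4 * (Q : ℝ)) ≤ J := by exact_mod_cast hJ
    have : ((2 * Q : ℕ) : ℝ) * (1 / ((J : ℝ) + 1)) ≤ 1 / 2 := by
      rw [mul_one_div, div_le_div_iff₀ hJ0 (by norm_num)]
      push_cast
      linarith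
    linarith
  have e3 := e2.trans h
  rw [div_le_div_iff₀ (by norm_num) (by positivity)] at e3
  linarith

lemma eval_bd {K : ℕ} (q : Polynomial ℝ) (hq : q.natDegree < K) {x y : ℝ} (hx : 0 ≤ x)
    (hx1 : x ≤ 1) (hy : 0 ≤ y) (hy1 : y ≤ 1) :
    |q.eval x| ≤ nm K q ∧ |q.eval x - q.eval y| ≤ K * nm K q * |x - y| := by
  have e : ∀ z, q.eval z = ∑ i ∈ range K, q.coeff i * z ^ i := fun z =>
    Polynomial.eval_eq_sum_range' hq z
  constructor
  · rw [e]
    refine (abs_sum_le_sum_abs _ _).trans ?_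
    refine sum_le_sum fun i _ => ?_
    rw [abs_mul, abs_of_nonneg (pow_nonneg hx i)]
    exact mul_le_of_le_one_right (abs_nonneg _) (pow_le_one₀ hx hx1)
  · rw [e, e, ← sum_sub_distrib]
    refine (abs_sum_le_sum_abs _ _).trans ?_
    unfold nm
    rw [mul_sum, sum_mul]
    refine sum_le_sum fun i hi => ?_
    rw [← mul_sub, abs_mul]
    have hp : ∀ i : ℕ, |x ^ i - y ^ i| ≤ i * |x - y| := by
      intro i
      induction i with
      | zero => simp
      | succ i ih =>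
        have : x ^ (i + 1) - y ^ (i + 1) = x ^ i * (x - y) + (x ^ i - y ^ i) * y := by ring
        rw [this]
        refine (abs_add_le _ _).trans ?_
        rw [abs_mul, abs_mul, abs_of_nonneg (pow_nonneg hx i), abs_of_nonneg hy]
        have h1 : x ^ i * |x - y| ≤ |x - y| :=
          mul_le_of_le_one_left (abs_nonneg _) (pow_le_one₀ hx hx1)
        have h2 : |x ^ i - y ^ i| * y ≤ |x ^ i - y ^ i| :=
          mul_le_of_le_one_right (abs_nonneg _) hy1
        push_cast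
        linarith
    have hiK : (i : ℝ) ≤ K := by exact_mod_cast (mem_range.1 hi).le
    calc |q.coeff i| * |x ^ i - y ^ i| ≤ |q.coeff i| * (i * |x - y|) :=
          mul_le_mul_of_nonneg_left (hp i) (abs_nonneg _)
      _ ≤ |q.coeff i| * (K * |x - y|) := by gcongr
      _ = K * |q.coeff i| * |x - y| := by ring

lemma nm_nonneg (K : ℕ) (q : Polynomial ℝ) : 0 ≤ nm K q := sum_nonneg fun _ _ => abs_nonneg _

theorem taskGrid : TaskGrid := by
  intro Q hQ
  refine ⟨16 * Q + 20, by positivity, 4 * Q, ?_⟩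
  intro J j₀ hJ hj0 hjJ
  have hQ0 : (0 : ℝ) < Q := by exact_mod_cast hQ
  have hQ1 : (1 : ℝ) ≤ Q := by exact_mod_cast hQ
  have hJ0 : (0 : ℝ) < J := by
    have : 0 < J := by omega
    exact_mod_cast this
  have hj00 : (0 : ℝ) < j₀ := by exact_mod_cast hj0
  -- end points
  obtain ⟨a, ha⟩ : ∃ a : ℝ, a = (J : ℝ) ^ (2 * Q) := ⟨_, rfl⟩
  obtain ⟨b, hb⟩ : ∃ b : ℝ, b = ((J : ℝ) + 1) ^ (2 * Q) := ⟨_, rfl⟩
  have ha0 : 0 < a := by rw [ha]; positivity
  have hab : b ≤ 2 * a := by rw [ha, hb]; exact pow_two_le hJ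
  have hlt : a < b := by
    rw [ha, hb]
    exact pow_lt_pow_left₀ (by linarith) hJ0.le (by omega)
  have hcast : ((J ^ (2 * Q) : ℕ) : ℝ) = a := by rw [ha]; push_cast; rfl
  have hcast' : (((J + 1) ^ (2 * Q) : ℕ) : ℝ) = b := by rw [hb]; push_cast; rfl
  have hcard : ((CC Q J).card : ℝ) = b - a := by
    unfold CC
    rw [Nat.card_Ioc, Nat.cast_sub (Nat.pow_le_pow_left (by omega) _), hcast, hcast']
  have hlen : 0 < b - a := by linarith
  rw [hcard]
  -- exponents
  set α : ℝ := 1 / (4 * (Q : ℝ)) with hα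
  set β : ℝ := 1 / (2 * (Q : ℝ)) with hβ
  have hα0 : 0 < α := by positivity
  have hα1 : α ≤ 1 := by
    rw [hα, div_le_one (by positivity)]
    linarith
  have hβ0 : 0 < β := by positivity
  have hβ1 : β ≤ 1 := by
    rw [hβ, div_le_one (by positivity)]
    linarith
  -- the nodes
  obtain ⟨s₀, hs₀⟩ : ∃ s₀ : ℝ, s₀ = ((j₀ : ℝ) ^ (2 * Q)) ^ α := ⟨_, rfl⟩
  have hs0 : 0 < s₀ := by rw [hs₀]; positivity
  have hvv : ∀ n : ℕ, vv Q j₀ n = (n : ℝ) ^ α / s₀ := by
    intro n
    unfold vv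
    rw [Real.div_rpow (by positivity) (by positivity), hs₀]
  have hUvv : ∀ j : ℕ, UU j₀ j = vv Q j₀ (j ^ (2 * Q)) := by
    intro j
    have h4 : 4 * Q ≠ 0 := by omega
    apply (pow_left_inj₀ (UU_nonneg _ _) (vv_nonneg _ _ _) h4).1
    rw [UU_pow (Q := Q), vv_pow hQ]
    push_cast
    rfl
  have hUa : UU j₀ J = a ^ α / s₀ := by rw [hUvv, hvv, hcast]
  have hUb : UU j₀ (J + 1) = b ^ α / s₀ := by rw [hUvv, hvv, hcast']
  have hbaα : 0 < b ^ α - a ^ α := by
    have := Real.rpow_lt_rpow ha0.le hlt hα0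
    linarith
  have htau : ∀ n : ℕ, tau j₀ J (vv Q j₀ n) = ((n : ℝ) ^ α - a ^ α) / (b ^ α - a ^ α) := by
    intro n
    unfold tau
    rw [hUa, hUb, hvv, div_sub_div_same, div_sub_div_same, div_div_div_cancel_right₀ hs0.ne']
  have htd : ∀ n k : ℕ, tau j₀ J (vv Q j₀ k) - tau j₀ J (vv Q j₀ n) =
      ((k : ℝ) ^ α - (n : ℝ) ^ α) / (b ^ α - a ^ α) := by
    intro n k
    rw [htau, htau, div_sub_div_same]
    congr 1
    ring
  have hbβ : b ^ β = (J : ℝ) + 1 := by
    rw [hb, hβ, ← Real.rpow_natCast, ← Real.rpow_mul (by positivity)]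
    have : ((2 * Q : ℕ) : ℝ) * (1 / (2 * (Q : ℝ))) = 1 := by
      push_cast
      field_simp
    rw [this, Real.rpow_one]
  have haβ : a ^ β = (J : ℝ) := by
    rw [ha, hβ, ← Real.rpow_natCast, ← Real.rpow_mul (by positivity)]
    have : ((2 * Q : ℕ) : ℝ) * (1 / (2 * (Q : ℝ))) = 1 := by
      push_cast
      field_simp
    rw [this, Real.rpow_one]
  have htot : b ^ β - a ^ β = 1 := by rw [hbβ, haβ]; ring
  -- ranges
  have hrange : ∀ n : ℕ, J ^ (2 * Q) ≤ n → a ≤ (n : ℝ) := by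
    intro n hn
    rw [← hcast]
    exact_mod_cast hn
  have hrange' : ∀ n : ℕ, n ≤ (J + 1) ^ (2 * Q) → (n : ℝ) ≤ b := by
    intro n hn
    rw [← hcast']
    exact_mod_cast hn
  have T2 : ∀ n k : ℕ, J ^ (2 * Q) ≤ n → n ≤ k → k ≤ (J + 1) ^ (2 * Q) →
      ((k : ℝ) - n) / (2 * (b - a)) ≤ tau j₀ J (vv Q j₀ k) - tau j₀ J (vv Q j₀ n) ∧
      tau j₀ J (vv Q j₀ k) - tau j₀ J (vv Q j₀ n) ≤ 2 * ((k : ℝ) - n) / (b - a) := by
    intro n k h1 h2 h3
    rw [htd]
    exact incr hα0 hα1 ha0 hab hlt (hrange n h1) (by exact_mod_cast h2) (hrange' k h3)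
  have T3 : ∀ n : ℕ, J ^ (2 * Q) ≤ n → n < (J + 1) ^ (2 * Q) →
      1 / (2 * (b - a)) ≤ om Q n ∧ om Q n ≤ 2 / (b - a) := by
    intro n h1 h2
    have h := incr hβ0 hβ1 ha0 hab hlt (hrange n h1) (by linarith : (n : ℝ) ≤ (n : ℝ) + 1)
      (by have := hrange' (n + 1) h2; push_cast at this; exact this)
    rw [htot, div_one] at h
    have e : (n : ℝ) + 1 - n = 1 := by ring
    rw [e, mul_one] at h
    exact h
  have T1 : tau j₀ J (vv Q j₀ (J ^ (2 * Q))) = 0 ∧
      tau j₀ J (vv Q j₀ ((J + 1) ^ (2 * Q))) = 1 := by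
    rw [htau, htau, hcast, hcast', sub_self, zero_div, div_self hbaα.ne']
    exact ⟨rfl, rfl⟩
  refine ⟨T1, T2, T3, ?_, ?_, ?_, ?_⟩
  · -- differences of om
    intro n k h1 h2 h3
    rcases h2.eq_or_lt with rfl | h2
    · simp
    have hn0 : a ≤ (n : ℝ) := hrange n h1
    have hk0 : a ≤ (k : ℝ) := hrange k (h1.trans h2.le)
    have hkb : (k : ℝ) + 1 ≤ b := by
      have := hrange' (k + 1) h3
      push_cast at this
      exact this
    have hnk : (n : ℝ) + 1 ≤ k := by exact_mod_cast h2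
    obtain ⟨c, hc1, hc2, hc⟩ := mv β (lt_of_lt_of_le ha0 hn0) (by linarith : (n : ℝ) < (n : ℝ) + 1)
    obtain ⟨d, hd1, hd2, hd⟩ := mv β (lt_of_lt_of_le ha0 hk0) (by linarith : (k : ℝ) < (k : ℝ) + 1)
    have hcd : c < d := by linarith
    obtain ⟨e, he1, he2, he⟩ := mv (β - 1) (by linarith : 0 < c) hcd
    have homn : om Q n = β * c ^ (β - 1) := by
      unfold om
      rw [hc]; ring
    have homk : om Q k = β * d ^ (β - 1) := by
      unfold om
      rw [hd]; ring
    -- bound for the derivative at e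
    obtain ⟨u, hu1, hu2, hu⟩ := mv β ha0 hlt
    rw [htot] at hu
    have r := rat hβ0.le hβ1 ha0 hab (by linarith : a ≤ e) hu1.le hu2.le
    have he0 : 0 < e := by linarith
    have hder : β * e ^ (β - 1) * (b - a) ≤ 2 := by
      have : β * e ^ (β - 1) * (b - a) ≤ β * (2 * u ^ (β - 1)) * (b - a) := by gcongr
      nlinarith
    have hdiff : om Q k - om Q n = -((1 - β) * (β * e ^ (β - 1)) / e * (d - c)) := by
      rw [homn, homk, ← mul_sub, he, Real.rpow_sub_one he0.ne' (β - 1)]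
      ring
    rw [abs_sub_comm, hdiff, abs_neg]
    have hpe : 0 < e ^ (β - 1) := Real.rpow_pos_of_pos he0 _
    have hb1 : 0 ≤ 1 - β := by linarith
    have hdc : 0 < d - c := by linarith
    rw [abs_of_nonneg (by positivity)]
    have hdc2 : d - c ≤ 2 * ((k : ℝ) - n) := by linarith
    have e1 : (1 - β) * (β * e ^ (β - 1)) / e ≤ 2 / (b - a) ^ 2 := by
      rw [div_le_div_iff₀ he0 (by positivity)]
      have hle : b - a ≤ e := by linarith
      have h5 : (1 - β) * (β * e ^ (β - 1)) ≤ β * e ^ (β - 1) := by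
        have : 0 ≤ β * e ^ (β - 1) := by positivity
        nlinarith
      calc (1 - β) * (β * e ^ (β - 1)) * (b - a) ^ 2 ≤ β * e ^ (β - 1) * (b - a) ^ 2 := by gcongr
        _ = (β * e ^ (β - 1) * (b - a)) * (b - a) := by ring
        _ ≤ 2 * e := mul_le_mul hder hle hlen.le (by norm_num)
    calc (1 - β) * (β * e ^ (β - 1)) / e * (d - c) ≤ 2 / (b - a) ^ 2 * (2 * ((k : ℝ) - n)) := by
          have : (0 : ℝ) ≤ (k : ℝ) - n := by linarith
          gcongr
      _ = 4 * ((k : ℝ) - n) / (b - a) ^ 2 := by ring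
      _ ≤ (16 * Q + 20) * ((k : ℝ) - n) / (b - a) ^ 2 := by
          have : (0 : ℝ) ≤ (k : ℝ) - n := by linarith
          gcongr
          linarith
  · -- the sum
    have hle : J ^ (2 * Q) ≤ (J + 1) ^ (2 * Q) := Nat.pow_le_pow_left (by omega) _
    have h := Finset.sum_Ico_sub (fun n : ℕ => (n : ℝ) ^ β) hle
    have e : ∀ n : ℕ, om Q n = ((n + 1 : ℕ) : ℝ) ^ β - (n : ℝ) ^ β := by
      intro n
      unfold om
      push_cast
      rfl
    simp only [e]
    rw [h, hcast, hcast', htot]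
  · -- the integrals
    intro q hq n h1 h2
    have hnn : vv Q j₀ n ≤ vv Q j₀ (n + 1) := by
      rw [hvv, hvv]
      gcongr
      omega
    have hsq : ∀ m : ℕ, (j₀ : ℝ) * vv Q j₀ m ^ 2 = (m : ℝ) ^ β := by
      intro m
      have h2Q : 2 * Q ≠ 0 := by omega
      apply (pow_left_inj₀ (by positivity) (by positivity) h2Q).1
      rw [mul_pow, ← pow_mul, show 2 * (2 * Q) = 4 * Q by ring, vv_pow hQ,
        ← Real.rpow_natCast ((m : ℝ) ^ β), ← Real.rpow_mul (by positivity), hβ]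
      have : 1 / (2 * (Q : ℝ)) * ((2 * Q : ℕ) : ℝ) = 1 := by
        push_cast
        field_simp
      rw [this, Real.rpow_one]
      field_simp
    have hint : 2 * (j₀ : ℝ) * ∫ v in (vv Q j₀ n)..(vv Q j₀ (n + 1)), v = om Q n := by
      rw [integral_id]
      have e1 := hsq n
      have e2 := hsq (n + 1)
      unfold om
      push_cast at e2
      rw [← hβ, ← e1, ← e2]
      ring
    have hUpos : 0 < UU j₀ (J + 1) - UU j₀ J := by
      rw [hUa, hUb, div_sub_div_same]
      positivity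
    have hct : Continuous (tau j₀ J) := by
      unfold tau
      fun_prop
    have hcq : Continuous (fun v => q.eval (tau j₀ J v)) := q.continuous.comp hct
    have hdec : 2 * (j₀ : ℝ) * gw Q j₀ J q n - om Q n * q.eval (tau j₀ J (vv Q j₀ n)) =
        2 * j₀ * ∫ v in (vv Q j₀ n)..(vv Q j₀ (n + 1)),
          v * (q.eval (tau j₀ J v) - q.eval (tau j₀ J (vv Q j₀ n))) := by
      unfold gw
      rw [← hint, mul_assoc (2 * (j₀ : ℝ)), ← mul_sub, ← intervalIntegral.integral_mul_const,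
        ← intervalIntegral.integral_sub]
      · congr 1
        refine intervalIntegral.integral_congr fun v _ => ?_
        ring
      · exact (continuous_id.mul hcq).intervalIntegrable _ _
      · exact (continuous_id.mul continuous_const).intervalIntegrable _ _
    have ht0 : 0 ≤ tau j₀ J (vv Q j₀ n) := by
      have := (T2 (J ^ (2 * Q)) n le_rfl h1 h2.le).1
      rw [T1.1, sub_zero] at this
      refine le_trans ?_ this
      have h5 : (0 : ℝ) ≤ (n : ℝ) - ((J ^ (2 * Q) : ℕ) : ℝ) := by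
        rw [hcast]
        have := hrange n h1
        linarith
      positivity
    have ht1 : tau j₀ J (vv Q j₀ (n + 1)) ≤ 1 := by
      have := (T2 (n + 1) ((J + 1) ^ (2 * Q)) (by omega) h2 le_rfl).1
      rw [T1.2] at this
      have h6 : (0 : ℝ) ≤ (((J + 1) ^ (2 * Q) : ℕ) : ℝ) - ((n + 1 : ℕ) : ℝ) := by
        rw [hcast']
        have := hrange' (n + 1) h2
        linarith
      have h7 : 0 ≤ ((((J + 1) ^ (2 * Q) : ℕ) : ℝ) - ((n + 1 : ℕ) : ℝ)) / (2 * (b - a)) := by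
        positivity
      linarith
    have hstep := (T2 n (n + 1) h1 (by omega) h2).2
    have hmono : ∀ v w : ℝ, v ≤ w → tau j₀ J v ≤ tau j₀ J w := by
      intro v w hvw
      unfold tau
      gcongr
    have hE : ∀ v ∈ Set.Ioc (vv Q j₀ n) (vv Q j₀ (n + 1)),
        ‖v * (q.eval (tau j₀ J v) - q.eval (tau j₀ J (vv Q j₀ n)))‖ ≤
          v * ((4 * Q + 4) * nm (4 * Q + 4) q * (2 / (b - a))) := by
      intro v hv
      have hv0 : 0 ≤ v := (vv_nonneg Q j₀ n).trans hv.1.le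
      have m1 := hmono _ _ hv.1.le
      have m2 := hmono _ _ hv.2
      have h8 := (eval_bd q hq (ht0.trans m1) (m2.trans ht1) ht0 (m1.trans (m2.trans ht1))).2
      rw [Real.norm_eq_abs, abs_mul, abs_of_nonneg hv0]
      refine mul_le_mul_of_nonneg_left (h8.trans ?_) hv0
      push_cast
      have h9 : |tau j₀ J v - tau j₀ J (vv Q j₀ n)| ≤ 2 / (b - a) := by
        rw [abs_of_nonneg (by linarith)]
        push_cast at hstep
        have : 2 * ((n : ℝ) + 1 - n) / (b - a) = 2 / (b - a) := by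
          congr 1
          ring
        rw [this] at hstep
        linarith
      have := nm_nonneg (4 * Q + 4) q
      gcongr
    rw [hdec, abs_mul, abs_of_pos (by positivity : (0 : ℝ) < 2 * j₀)]
    have hii : IntervalIntegrable
        (fun v : ℝ => v * ((4 * Q + 4) * nm (4 * Q + 4) q * (2 / (b - a))))
        MeasureTheory.volume (vv Q j₀ n) (vv Q j₀ (n + 1)) :=
      (continuous_id.mul continuous_const).intervalIntegrable _ _
    have hI := intervalIntegral.norm_integral_le_of_norm_le hnn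
      (Filter.Eventually.of_forall fun v hv => hE v hv) hii
    rw [Real.norm_eq_abs] at hI
    have hI2 := mul_le_mul_of_nonneg_left hI (by positivity : (0 : ℝ) ≤ 2 * j₀)
    rw [intervalIntegral.integral_mul_const, ← mul_assoc (2 * (j₀ : ℝ)), hint] at hI2
    refine hI2.trans ?_
    have h10 := (T3 n h1 h2).2
    have h11 := nm_nonneg (4 * Q + 4) q
    calc om Q n * ((4 * Q + 4) * nm (4 * Q + 4) q * (2 / (b - a)))
        ≤ 2 / (b - a) * ((4 * Q + 4) * nm (4 * Q + 4) q * (2 / (b - a))) := by gcongr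
      _ = (16 * Q + 16) * nm (4 * Q + 4) q / (b - a) ^ 2 := by
          field_simp
          ring
      _ ≤ (16 * Q + 20) * nm (4 * Q + 4) q / (b - a) ^ 2 := by
          gcongr
          linarith
  · intro q hq x y hx hx1 hy hy1
    have h := eval_bd q hq hx hx1 hy hy1
    push_cast at h
    exact h

end Pool.Agent.W591.LV
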